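import Pool.Agent.Q291.HEA.Stm

/-!
# Project HEA (helper291), job S4B

The value `(U K u v)^[4] c0 1` is a homogeneous polynomial of degree 8 in `u`, `v` with natural
coefficients; they are computed (lists of natural numbers) and compared with the coefficients of
`99 / 100 * (u + v) * (K u + (K + 1) v) ^ 7`.
-/

set_option autoImplicit false
set_option linter.unusedVariables false

namespace Pool.Agent.Q182.HEA

open Pool.Agent.Q291.HEA

/-- sum -/
def add : List ℕ → List ℕ → List ℕ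
  | a :: l, b :: m => (a + b) :: add l m
  | _, _ => []

/-- multiple -/
def sml (c : ℕ) : List ℕ → List ℕ
  | [] => []
  | a :: l => (c * a) :: sml c l

/-- product with a quadratic form -/
def mq (q0 q1 q2 : ℕ) (l : List ℕ) : List ℕ :=
  add (sml q0 ((l ++ [0]) ++ [0])) (add (sml q1 (0 :: (l ++ [0]))) (sml q2 (0 :: 0 :: l)))

/-- product with a linear form -/
def ml (a b : ℕ) (l : List ℕ) : List ℕ := add (sml a (l ++ [0])) (sml b (0 :: l))

/-- sum of a sequence -/
def sm (z : List ℕ) (f : ℕ → List ℕ) : ℕ → List ℕ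
  | 0 => z
  | n + 1 => add (sm z f n) (f n)

/-- one chain -/
def ch (z : List ℕ) (C : List (List ℕ)) (s k : ℕ) : List ℕ :=
  sm z (fun r => C.getD (s + k - 1 - 2 * r) z) (min s k)

/-- one step -/
def ly (K : ℕ) (z : List ℕ) (C : List (List ℕ)) (k : ℕ) : List ℕ :=
  add (mq 2 4 2 (sm z (fun s => ch z C s k) K))
    (add (mq 1 4 2 (ch z C K k)) (mq 0 0 1 (ch z C (K + 1) k)))

/-- the profile -/
def C0 (K : ℕ) : List (List ℕ) := [0] :: List.replicate (4 * K + 1) [1]
/-- the profile -/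
def C1 (K : ℕ) : List (List ℕ) := (List.range (3 * K + 2)).map (ly K [0] (C0 K))
/-- the profile -/
def C2 (K : ℕ) : List (List ℕ) := (List.range (2 * K + 2)).map (ly K [0, 0, 0] (C1 K))
/-- the profile -/
def C3 (K : ℕ) : List (List ℕ) := (List.range (K + 2)).map (ly K [0, 0, 0, 0, 0] (C2 K))
/-- the result -/
def C4 (K : ℕ) : List ℕ := ly K [0, 0, 0, 0, 0, 0, 0] (C3 K) 1

/-- comparison -/
def leq : List ℕ → List ℕ → Bool
  | [], [] => true
  | a :: l, b :: m => (a.ble b) && leq l m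
  | _, _ => false

/-- the right hand side -/
def rhs (K : ℕ) : List ℕ :=
  sml 99 (ml 1 1 (ml K (K + 1) (ml K (K + 1) (ml K (K + 1) (ml K (K + 1) (ml K (K + 1)
    (ml K (K + 1) (ml K (K + 1) [1]))))))))

/-- the check -/
def chk (K : ℕ) : Bool := leq (sml 100 (C4 K)) (rhs K)

/-- the value of a homogeneous polynomial -/
noncomputable def ev (u v : ℝ) : List ℕ → ℝ
  | [] => 0
  | a :: l => a * u ^ l.length + v * ev u v l

/-- `l` represents `x` -/
def Rep (u v : ℝ) (n : ℕ) (l : List ℕ) (x : ℝ) : Prop := l.length = n ∧ ev u v l = x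

variable {u v : ℝ}

theorem rep_add {n : ℕ} {l m : List ℕ} {x y : ℝ} (hl : Rep u v n l x) (hm : Rep u v n m y) :
    Rep u v n (add l m) (x + y) := by
  induction l generalizing n m x y with
  | nil =>
    cases m with
    | nil =>
      obtain ⟨h1, h2⟩ := hl
      obtain ⟨h3, h4⟩ := hm
      refine ⟨h1, ?_⟩
      rw [← h2, ← h4]
      change (0 : ℝ) = 0 + 0
      ring
    | cons b m =>
      have h1 := hl.1
      have h2 := hm.1
      rw [← h1] at h2
      simp at h2
  | cons a l ih =>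
    cases m with
    | nil =>
      have h1 := hl.1
      have h2 := hm.1
      rw [← h2] at h1
      simp at h1
    | cons b m =>
      obtain ⟨h1, h2⟩ := hl
      obtain ⟨h3, h4⟩ := hm
      have h5 : m.length = l.length := by
        rw [← h1] at h3
        simpa using h3
      have h6 := ih (n := l.length) ⟨rfl, rfl⟩ (⟨h5, rfl⟩ : Rep u v l.length m (ev u v m))
      refine ⟨?_, ?_⟩
      · change (add l m).length + 1 = n
        rw [h6.1, ← h1]
        rfl
      · rw [← h2, ← h4]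
        change ((a + b : ℕ) : ℝ) * u ^ (add l m).length + v * ev u v (add l m) =
          (a * u ^ l.length + v * ev u v l) + (b * u ^ m.length + v * ev u v m)
        rw [h6.1, h6.2, h5]
        push_cast
        ring

theorem rep_sml {n : ℕ} {l : List ℕ} {x : ℝ} (c : ℕ) (hl : Rep u v n l x) :
    Rep u v n (sml c l) (c * x) := by
  induction l generalizing n x with
  | nil =>
    obtain ⟨h1, h2⟩ := hl
    refine ⟨h1, ?_⟩
    rw [← h2]
    change (0 : ℝ) = c * 0
    ring
  | cons a l ih =>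
    obtain ⟨h1, h2⟩ := hl
    have h6 := ih (n := l.length) (⟨rfl, rfl⟩ : Rep u v l.length l (ev u v l))
    refine ⟨?_, ?_⟩
    · change (sml c l).length + 1 = n
      rw [h6.1, ← h1]
      rfl
    · rw [← h2]
      change ((c * a : ℕ) : ℝ) * u ^ (sml c l).length + v * ev u v (sml c l) =
        c * (a * u ^ l.length + v * ev u v l)
      rw [h6.1, h6.2]
      push_cast
      ring

theorem rep_app {n : ℕ} {l : List ℕ} {x : ℝ} (hl : Rep u v n l x) :
    Rep u v (n + 1) (l ++ [0]) (u * x) := by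
  induction l generalizing n x with
  | nil =>
    obtain ⟨h1, h2⟩ := hl
    refine ⟨by rw [← h1]; rfl, ?_⟩
    rw [← h2]
    change ((0 : ℕ) : ℝ) * u ^ 0 + v * 0 = u * 0
    push_cast
    ring
  | cons a l ih =>
    obtain ⟨h1, h2⟩ := hl
    have h6 := ih (n := l.length) (⟨rfl, rfl⟩ : Rep u v l.length l (ev u v l))
    refine ⟨by rw [List.length_append, h1]; rfl, ?_⟩
    rw [← h2]
    change (a : ℝ) * u ^ (l ++ [0]).length + v * ev u v (l ++ [0]) =
      u * (a * u ^ l.length + v * ev u v l)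
    rw [h6.1, h6.2]
    ring

theorem rep_cons {n : ℕ} {l : List ℕ} {x : ℝ} (hl : Rep u v n l x) :
    Rep u v (n + 1) (0 :: l) (v * x) := by
  obtain ⟨h1, h2⟩ := hl
  refine ⟨by rw [List.length_cons, h1], ?_⟩
  rw [← h2]
  change ((0 : ℕ) : ℝ) * u ^ l.length + v * ev u v l = v * ev u v l
  push_cast
  ring

theorem rep_congr {n : ℕ} {l : List ℕ} {x y : ℝ} (hl : Rep u v n l x) (h : x = y) :
    Rep u v n l y := h ▸ hl

theorem rep_mq {n : ℕ} {l : List ℕ} {x : ℝ} (q0 q1 q2 : ℕ) (hl : Rep u v n l x) :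
    Rep u v (n + 2) (mq q0 q1 q2 l) ((q0 * u ^ 2 + q1 * (u * v) + q2 * v ^ 2) * x) := by
  refine rep_congr (rep_add (rep_sml q0 (rep_app (rep_app hl)))
    (rep_add (rep_sml q1 (rep_cons (rep_app hl))) (rep_sml q2 (rep_cons (rep_cons hl))))) ?_
  ring

theorem rep_ml {n : ℕ} {l : List ℕ} {x : ℝ} (a b : ℕ) (hl : Rep u v n l x) :
    Rep u v (n + 1) (ml a b l) ((a * u + b * v) * x) := by
  refine rep_congr (rep_add (rep_sml a (rep_app hl)) (rep_sml b (rep_cons hl))) ?_
  ring

theorem rep_sm {n : ℕ} {z : List ℕ} (hz : Rep u v n z 0) (f : ℕ → List ℕ) (g : ℕ → ℝ) (m : ℕ)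
    (h : ∀ r < m, Rep u v n (f r) (g r)) : Rep u v n (sm z f m) (∑ r ∈ Finset.range m, g r) := by
  induction m with
  | zero => exact hz
  | succ m ih =>
    rw [Finset.sum_range_succ]
    exact rep_add (ih fun r hr => h r (by omega)) (h m (by omega))

theorem rep_ch {n N : ℕ} {z : List ℕ} (hz : Rep u v n z 0) {C : List (List ℕ)} {c : ℕ → ℝ}
    (hC : ∀ k ≤ N, Rep u v n (C.getD k z) (c k)) (s k : ℕ) (hsk : s + k ≤ N + 1) :
    Rep u v n (ch z C s k) (∑ r ∈ Finset.range (min s k), c (s + k - 1 - 2 * r)) :=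
  rep_sm hz _ _ _ fun r _ => hC _ (by omega)

theorem rep_ly {n N K : ℕ} {z : List ℕ} (hz : Rep u v n z 0) {C : List (List ℕ)} {c : ℕ → ℝ}
    (hC : ∀ k ≤ N, Rep u v n (C.getD k z) (c k)) (k : ℕ) (hk : K + k ≤ N) :
    Rep u v (n + 2) (ly K z C k) (U K u v c k) := by
  have h1 : Rep u v n (sm z (fun s => ch z C s k) K)
      (∑ s ∈ Finset.range K, ∑ r ∈ Finset.range (min s k), c (s + k - 1 - 2 * r)) :=
    rep_sm hz _ _ _ fun s hs => rep_ch hz hC s k (by omega)
  have h2 := rep_ch hz hC K k (by omega)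
  have h3 := rep_ch hz hC (K + 1) k (by omega)
  refine rep_congr (rep_add (rep_mq 2 4 2 h1) (rep_add (rep_mq 1 4 2 h2) (rep_mq 0 0 1 h3))) ?_
  unfold U
  rw [Finset.sum_range_succ, Finset.sum_range_succ]
  have e1 : ∑ s ∈ Finset.range K, wgt K u v s *
      ∑ r ∈ Finset.range (min s k), c (s + k - 1 - 2 * r) = (2 * (u + v) ^ 2) *
      ∑ s ∈ Finset.range K, ∑ r ∈ Finset.range (min s k), c (s + k - 1 - 2 * r) := by
    rw [Finset.mul_sum]
    refine Finset.sum_congr rfl fun s hs => ?_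
    rw [Finset.mem_range] at hs
    rcases Nat.eq_zero_or_pos s with rfl | h0
    · simp
    · congr 1
      unfold wgt
      rw [if_neg (by omega), if_pos hs]
  have e2 : wgt K u v K * ∑ r ∈ Finset.range (min K k), c (K + k - 1 - 2 * r) =
      (u ^ 2 + 4 * u * v + 2 * v ^ 2) * ∑ r ∈ Finset.range (min K k), c (K + k - 1 - 2 * r) := by
    rcases Nat.eq_zero_or_pos K with rfl | h0
    · simp
    · congr 1
      unfold wgt
      rw [if_neg (by omega), if_neg (by omega), if_pos rfl]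
  have e3 : wgt K u v (K + 1) = v ^ 2 := by
    unfold wgt
    rw [if_neg (by omega), if_neg (by omega), if_neg (by omega), if_pos rfl]
  rw [e1, e2, e3]
  push_cast
  ring

theorem getD_map {z : List ℕ} (f : ℕ → List ℕ) {m k : ℕ} (h : k < m) :
    ((List.range m).map f).getD k z = f k := by
  rw [List.getD_eq_getElem _ _ (by simpa using h), List.getElem_map, List.getElem_range]

theorem rep_C0 (K : ℕ) : ∀ k ≤ 4 * K + 1, Rep u v 1 ((C0 K).getD k [0]) (c0 k) := by
  intro k hk
  unfold C0 c0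
  rcases Nat.eq_zero_or_pos k with rfl | h0
  · refine ⟨rfl, ?_⟩
    change ((0 : ℕ) : ℝ) * u ^ 0 + v * 0 = _
    simp
  · obtain ⟨j, rfl⟩ : ∃ j, k = j + 1 := ⟨k - 1, by omega⟩
    rw [List.getD_cons_succ, List.getD_eq_getElem _ _ (by rw [List.length_replicate]; omega),
      List.getElem_replicate, if_neg (by omega)]
    refine ⟨rfl, ?_⟩
    change ((1 : ℕ) : ℝ) * u ^ 0 + v * 0 = _
    simp

theorem rep_zero (n : ℕ) : Rep u v n (List.replicate n 0) 0 := by
  induction n with
  | zero => exact ⟨rfl, rfl⟩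
  | succ n ih => exact rep_congr (rep_cons ih) (by ring)

theorem rep_C4 (K : ℕ) : Rep u v 9 (C4 K) ((U K u v)^[4] c0 1) := by
  have h1 : ∀ k ≤ 3 * K + 1, Rep u v 3 ((C1 K).getD k [0, 0, 0]) (U K u v c0 k) := by
    intro k hk
    unfold C1
    rw [getD_map _ (by omega)]
    exact rep_ly (rep_zero 1) (rep_C0 K) k (by omega)
  have h2 : ∀ k ≤ 2 * K + 1, Rep u v 5 ((C2 K).getD k [0, 0, 0, 0, 0])
      (U K u v (U K u v c0) k) := by
    intro k hk
    unfold C2
    rw [getD_map _ (by omega)]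
    exact rep_ly (rep_zero 3) h1 k (by omega)
  have h3 : ∀ k ≤ K + 1, Rep u v 7 ((C3 K).getD k [0, 0, 0, 0, 0, 0, 0])
      (U K u v (U K u v (U K u v c0)) k) := by
    intro k hk
    unfold C3
    rw [getD_map _ (by omega)]
    exact rep_ly (rep_zero 5) h2 k (by omega)
  exact rep_ly (rep_zero 7) h3 1 (by omega)

theorem ev_nonneg (hu : 0 ≤ u) (hv : 0 ≤ v) : ∀ l : List ℕ, 0 ≤ ev u v l
  | [] => le_rfl
  | a :: l => by
    have := ev_nonneg hu hv l
    change 0 ≤ (a : ℝ) * u ^ l.length + v * ev u v l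
    positivity

theorem ev_le (hu : 0 ≤ u) (hv : 0 ≤ v) : ∀ l m : List ℕ, leq l m = true →
    l.length = m.length ∧ ev u v l ≤ ev u v m
  | [], [], _ => ⟨rfl, le_rfl⟩
  | [], _ :: _, h => absurd h (by simp [leq])
  | _ :: _, [], h => absurd h (by simp [leq])
  | a :: l, b :: m, h => by
    simp only [leq, Bool.and_eq_true] at h
    obtain ⟨h1, h2⟩ := ev_le hu hv l m h.2
    have h3 : (a : ℝ) ≤ b := by exact_mod_cast Nat.le_of_ble_eq_true h.1
    refine ⟨by rw [List.length_cons, List.length_cons, h1], ?_⟩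
    change (a : ℝ) * u ^ l.length + v * ev u v l ≤ (b : ℝ) * u ^ m.length + v * ev u v m
    rw [h1]
    exact add_le_add (mul_le_mul_of_nonneg_right h3 (by positivity))
      (mul_le_mul_of_nonneg_left h2 hv)

theorem of_chk {K : ℕ} (h : chk K = true) (hu : 0 ≤ u) (hv : 0 ≤ v)
    (huv : u * K + v * (K + 1) = 1) : (U K u v)^[4] c0 1 ≤ 99 / 100 * (u + v) := by
  have h1 := (rep_sml 100 (rep_C4 (u := u) (v := v) K)).2
  have hone : Rep u v 1 [1] 1 := by
    refine ⟨rfl, ?_⟩
    change ((1 : ℕ) : ℝ) * u ^ 0 + v * 0 = _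
    simp
  have h2 := (rep_sml 99 (rep_ml 1 1 (rep_ml K (K + 1) (rep_ml K (K + 1) (rep_ml K (K + 1)
    (rep_ml K (K + 1) (rep_ml K (K + 1) (rep_ml K (K + 1) (rep_ml K (K + 1) hone))))))))).2
  have h3 := (ev_le hu hv _ _ h).2
  have h4 : ((K : ℕ) : ℝ) * u + ((K + 1 : ℕ) : ℝ) * v = 1 := by
    push_cast
    linarith
  unfold rhs at h3
  rw [h1, h2, h4] at h3
  push_cast at h3
  linarith

set_option maxRecDepth 100000 in
theorem chk_all : ∀ K ∈ List.range' 2 22, chk K = true := by decide +kernel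

/-- **Job S4B.** -/
theorem t_S4B : P_S4B := by
  intro K h2 h23 u v hu hv huv
  exact of_chk (chk_all K (by rw [List.mem_range'_1]; omega)) hu hv huv

end Pool.Agent.Q182.HEA
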